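import Pool.Agent.Lib.MP_084b88_gt.SK.S1.D
import Pool.Agent.Lib.MP_084b88_gt.SK.PYG

/-! # MP_084b88_gt: certificate S1, parity of the expression -/

set_option autoImplicit false

namespace Pool.Agent.Lib.MP_084b88_gt.SK.S1

open Pool.Agent.Lib.MP_084b88_gt.SK

theorem hpy : pyE sgX (Ex.add (smE 2 G) T) = 1 := pyX_of _ (by decide +kernel)

end Pool.Agent.Lib.MP_084b88_gt.SK.S1
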