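import Pool.Agent.Lib.MP_084b88_gt.SK.S1.K
import Pool.Agent.Lib.MP_084b88_gt.SK.S1.X
import Pool.Agent.Lib.MP_084b88_gt.SK.S1.Y
import Pool.Agent.Lib.MP_084b88_gt.SK.S1.M
import Pool.Agent.Lib.MP_084b88_gt.SK.S1.P0
import Pool.Agent.Lib.MP_084b88_gt.SK.S1.P1
import Pool.Agent.Lib.MP_084b88_gt.SK.S1.P2
import Pool.Agent.Lib.MP_084b88_gt.SK.S1.P3
import Pool.Agent.Lib.MP_084b88_gt.SK.S1.P4
import Pool.Agent.Lib.MP_084b88_gt.SK.S1.P5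
import Pool.Agent.Lib.MP_084b88_gt.SK.SNX
import Pool.Agent.Lib.MP_084b88_gt.SK.HFX
import Pool.Agent.Lib.MP_084b88_gt.SK.TLS
import Pool.Agent.Lib.MP_084b88_gt.SK.XGR

/-! # MP_084b88_gt: certificate S1, the generator -/

set_option autoImplicit false

open MeasureTheory Set Real Filter Topology

namespace Pool.Agent.Lib.MP_084b88_gt.SK.S1

open Pool.Agent.Lib.MP_084b88_gt.SK Pool.Agent.Lib.MP_084b88_gt.CW Pool.Agent.Lib.MP_084b88_gt.SY Pool.Agent.Lib.MP_084b88_gt.AY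

theorem hid0 : HId P (ml0.map Prod.snd ++ []) [eX] (Ex.add (smE 2 G) T) fun ρ => ev ρ (P.mP Z) :=
  hid_x hQ [E] (List.forall_mem_cons.2 ⟨hE, List.forall_mem_nil _⟩) (Ex.add (smE 2 G) T) F Z [] (ml0.map Prod.snd) []
    hF (VFM.part_nil P) hck

theorem hp0 : ∀ x ∈ ml0, ∀ y ∈ x.2.bl, PsdOK P.b P.o y.rows := by
  unfold ml0
  have e36 : ∀ y ∈ m36.2.bl, PsdOK P.b P.o y.rows := List.forall_mem_cons.2 ⟨p251, List.forall_mem_cons.2 ⟨p252, List.forall_mem_cons.2 ⟨p253, List.forall_mem_cons.2 ⟨p254, List.forall_mem_nil _⟩⟩⟩⟩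
  have e35 : ∀ y ∈ m35.2.bl, PsdOK P.b P.o y.rows := List.forall_mem_cons.2 ⟨p247, List.forall_mem_cons.2 ⟨p248, List.forall_mem_cons.2 ⟨p249, List.forall_mem_cons.2 ⟨p250, List.forall_mem_nil _⟩⟩⟩⟩
  have e34 : ∀ y ∈ m34.2.bl, PsdOK P.b P.o y.rows := List.forall_mem_cons.2 ⟨p236, List.forall_mem_cons.2 ⟨p237, List.forall_mem_cons.2 ⟨p238, List.forall_mem_cons.2 ⟨p239, List.forall_mem_cons.2 ⟨p240, List.forall_mem_cons.2 ⟨p241, List.forall_mem_cons.2 ⟨p242, List.forall_mem_nil _⟩⟩⟩⟩⟩⟩⟩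
  have e33 : ∀ y ∈ m33.2.bl, PsdOK P.b P.o y.rows := List.forall_mem_cons.2 ⟨p204, List.forall_mem_cons.2 ⟨p205, List.forall_mem_nil _⟩⟩
  have e32 : ∀ y ∈ m32.2.bl, PsdOK P.b P.o y.rows := List.forall_mem_cons.2 ⟨p198, List.forall_mem_cons.2 ⟨p199, List.forall_mem_cons.2 ⟨p202, List.forall_mem_cons.2 ⟨p203, List.forall_mem_nil _⟩⟩⟩⟩
  have e31 : ∀ y ∈ m31.2.bl, PsdOK P.b P.o y.rows := List.forall_mem_cons.2 ⟨p196, List.forall_mem_cons.2 ⟨p197, List.forall_mem_cons.2 ⟨p200, List.forall_mem_cons.2 ⟨p201, List.forall_mem_nil _⟩⟩⟩⟩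
  have e30 : ∀ y ∈ m30.2.bl, PsdOK P.b P.o y.rows := List.forall_mem_cons.2 ⟨p194, List.forall_mem_cons.2 ⟨p195, List.forall_mem_nil _⟩⟩
  have e29 : ∀ y ∈ m29.2.bl, PsdOK P.b P.o y.rows := List.forall_mem_cons.2 ⟨p192, List.forall_mem_cons.2 ⟨p193, List.forall_mem_nil _⟩⟩
  have e28 : ∀ y ∈ m28.2.bl, PsdOK P.b P.o y.rows := List.forall_mem_cons.2 ⟨p186, List.forall_mem_cons.2 ⟨p187, List.forall_mem_cons.2 ⟨p190, List.forall_mem_cons.2 ⟨p191, List.forall_mem_nil _⟩⟩⟩⟩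
  have e27 : ∀ y ∈ m27.2.bl, PsdOK P.b P.o y.rows := List.forall_mem_cons.2 ⟨p184, List.forall_mem_cons.2 ⟨p185, List.forall_mem_cons.2 ⟨p188, List.forall_mem_cons.2 ⟨p189, List.forall_mem_nil _⟩⟩⟩⟩
  have e26 : ∀ y ∈ m26.2.bl, PsdOK P.b P.o y.rows := List.forall_mem_cons.2 ⟨p178, List.forall_mem_cons.2 ⟨p179, List.forall_mem_cons.2 ⟨p180, List.forall_mem_cons.2 ⟨p181, List.forall_mem_cons.2 ⟨p182, List.forall_mem_cons.2 ⟨p183, List.forall_mem_cons.2 ⟨p206, List.forall_mem_cons.2 ⟨p207, List.forall_mem_cons.2 ⟨p208, List.forall_mem_cons.2 ⟨p209, List.forall_mem_cons.2 ⟨p210, List.forall_mem_cons.2 ⟨p211, List.forall_mem_cons.2 ⟨p212, List.forall_mem_cons.2 ⟨p213, List.forall_mem_nil _⟩⟩⟩⟩⟩⟩⟩⟩⟩⟩⟩⟩⟩⟩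
  have e25 : ∀ y ∈ m25.2.bl, PsdOK P.b P.o y.rows := List.forall_mem_cons.2 ⟨p164, List.forall_mem_cons.2 ⟨p165, List.forall_mem_cons.2 ⟨p166, List.forall_mem_cons.2 ⟨p167, List.forall_mem_nil _⟩⟩⟩⟩
  have e24 : ∀ y ∈ m24.2.bl, PsdOK P.b P.o y.rows := List.forall_mem_cons.2 ⟨p162, List.forall_mem_cons.2 ⟨p163, List.forall_mem_nil _⟩⟩
  have e23 : ∀ y ∈ m23.2.bl, PsdOK P.b P.o y.rows := List.forall_mem_cons.2 ⟨p156, List.forall_mem_cons.2 ⟨p157, List.forall_mem_cons.2 ⟨p160, List.forall_mem_cons.2 ⟨p161, List.forall_mem_nil _⟩⟩⟩⟩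
  have e22 : ∀ y ∈ m22.2.bl, PsdOK P.b P.o y.rows := List.forall_mem_cons.2 ⟨p154, List.forall_mem_cons.2 ⟨p155, List.forall_mem_cons.2 ⟨p158, List.forall_mem_cons.2 ⟨p159, List.forall_mem_nil _⟩⟩⟩⟩
  have e21 : ∀ y ∈ m21.2.bl, PsdOK P.b P.o y.rows := List.forall_mem_cons.2 ⟨p145, List.forall_mem_cons.2 ⟨p146, List.forall_mem_cons.2 ⟨p147, List.forall_mem_cons.2 ⟨p148, List.forall_mem_cons.2 ⟨p149, List.forall_mem_cons.2 ⟨p150, List.forall_mem_cons.2 ⟨p151, List.forall_mem_cons.2 ⟨p152, List.forall_mem_cons.2 ⟨p153, List.forall_mem_cons.2 ⟨p168, List.forall_mem_cons.2 ⟨p169, List.forall_mem_cons.2 ⟨p170, List.forall_mem_cons.2 ⟨p171, List.forall_mem_cons.2 ⟨p172, List.forall_mem_cons.2 ⟨p173, List.forall_mem_cons.2 ⟨p174, List.forall_mem_cons.2 ⟨p175, List.forall_mem_cons.2 ⟨p176, List.forall_mem_cons.2 ⟨p177, List.forall_mem_nil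 _⟩⟩⟩⟩⟩⟩⟩⟩⟩⟩⟩⟩⟩⟩⟩⟩⟩⟩⟩
  have e20 : ∀ y ∈ m20.2.bl, PsdOK P.b P.o y.rows := List.forall_mem_cons.2 ⟨p119, List.forall_mem_cons.2 ⟨p120, List.forall_mem_nil _⟩⟩
  have e19 : ∀ y ∈ m19.2.bl, PsdOK P.b P.o y.rows := List.forall_mem_cons.2 ⟨p113, List.forall_mem_cons.2 ⟨p114, List.forall_mem_cons.2 ⟨p117, List.forall_mem_cons.2 ⟨p118, List.forall_mem_cons.2 ⟨p141, List.forall_mem_cons.2 ⟨p142, List.forall_mem_cons.2 ⟨p143, List.forall_mem_cons.2 ⟨p144, List.forall_mem_nil _⟩⟩⟩⟩⟩⟩⟩⟩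
  have e18 : ∀ y ∈ m18.2.bl, PsdOK P.b P.o y.rows := List.forall_mem_cons.2 ⟨p111, List.forall_mem_cons.2 ⟨p112, List.forall_mem_cons.2 ⟨p115, List.forall_mem_cons.2 ⟨p116, List.forall_mem_cons.2 ⟨p137, List.forall_mem_cons.2 ⟨p138, List.forall_mem_cons.2 ⟨p139, List.forall_mem_cons.2 ⟨p140, List.forall_mem_nil _⟩⟩⟩⟩⟩⟩⟩⟩
  have e17 : ∀ y ∈ m17.2.bl, PsdOK P.b P.o y.rows := List.forall_mem_cons.2 ⟨p109, List.forall_mem_cons.2 ⟨p110, List.forall_mem_nil _⟩⟩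
  have e16 : ∀ y ∈ m16.2.bl, PsdOK P.b P.o y.rows := List.forall_mem_cons.2 ⟨p107, List.forall_mem_cons.2 ⟨p108, List.forall_mem_nil _⟩⟩
  have e15 : ∀ y ∈ m15.2.bl, PsdOK P.b P.o y.rows := List.forall_mem_cons.2 ⟨p101, List.forall_mem_cons.2 ⟨p102, List.forall_mem_cons.2 ⟨p105, List.forall_mem_cons.2 ⟨p106, List.forall_mem_cons.2 ⟨p133, List.forall_mem_cons.2 ⟨p134, List.forall_mem_cons.2 ⟨p135, List.forall_mem_cons.2 ⟨p136, List.forall_mem_nil _⟩⟩⟩⟩⟩⟩⟩⟩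
  have e14 : ∀ y ∈ m14.2.bl, PsdOK P.b P.o y.rows := List.forall_mem_cons.2 ⟨p99, List.forall_mem_cons.2 ⟨p100, List.forall_mem_cons.2 ⟨p103, List.forall_mem_cons.2 ⟨p104, List.forall_mem_cons.2 ⟨p129, List.forall_mem_cons.2 ⟨p130, List.forall_mem_cons.2 ⟨p131, List.forall_mem_cons.2 ⟨p132, List.forall_mem_nil _⟩⟩⟩⟩⟩⟩⟩⟩
  have e13 : ∀ y ∈ m13.2.bl, PsdOK P.b P.o y.rows := List.forall_mem_cons.2 ⟨p93, List.forall_mem_cons.2 ⟨p94, List.forall_mem_cons.2 ⟨p95, List.forall_mem_cons.2 ⟨p96, List.forall_mem_cons.2 ⟨p97, List.forall_mem_cons.2 ⟨p98, List.forall_mem_cons.2 ⟨p121, List.forall_mem_cons.2 ⟨p122, List.forall_mem_cons.2 ⟨p123, List.forall_mem_cons.2 ⟨p124, List.forall_mem_cons.2 ⟨p125, List.forall_mem_cons.2 ⟨p126, List.forall_mem_cons.2 ⟨p127, List.forall_mem_cons.2 ⟨p128, List.forall_mem_nil _⟩⟩⟩⟩⟩⟩⟩⟩⟩⟩⟩⟩⟩⟩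
  have e12 : ∀ y ∈ m12.2.bl, PsdOK P.b P.o y.rows := List.forall_mem_cons.2 ⟨p67, List.forall_mem_cons.2 ⟨p68, List.forall_mem_nil _⟩⟩
  have e11 : ∀ y ∈ m11.2.bl, PsdOK P.b P.o y.rows := List.forall_mem_cons.2 ⟨p61, List.forall_mem_cons.2 ⟨p62, List.forall_mem_cons.2 ⟨p65, List.forall_mem_cons.2 ⟨p66, List.forall_mem_cons.2 ⟨p89, List.forall_mem_cons.2 ⟨p90, List.forall_mem_cons.2 ⟨p91, List.forall_mem_cons.2 ⟨p92, List.forall_mem_nil _⟩⟩⟩⟩⟩⟩⟩⟩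
  have e10 : ∀ y ∈ m10.2.bl, PsdOK P.b P.o y.rows := List.forall_mem_cons.2 ⟨p59, List.forall_mem_cons.2 ⟨p60, List.forall_mem_cons.2 ⟨p63, List.forall_mem_cons.2 ⟨p64, List.forall_mem_cons.2 ⟨p85, List.forall_mem_cons.2 ⟨p86, List.forall_mem_cons.2 ⟨p87, List.forall_mem_cons.2 ⟨p88, List.forall_mem_nil _⟩⟩⟩⟩⟩⟩⟩⟩
  have e9 : ∀ y ∈ m9.2.bl, PsdOK P.b P.o y.rows := List.forall_mem_cons.2 ⟨p57, List.forall_mem_cons.2 ⟨p58, List.forall_mem_nil _⟩⟩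
  have e8 : ∀ y ∈ m8.2.bl, PsdOK P.b P.o y.rows := List.forall_mem_cons.2 ⟨p55, List.forall_mem_cons.2 ⟨p56, List.forall_mem_cons.2 ⟨p243, List.forall_mem_cons.2 ⟨p244, List.forall_mem_cons.2 ⟨p245, List.forall_mem_cons.2 ⟨p246, List.forall_mem_nil _⟩⟩⟩⟩⟩⟩
  have e7 : ∀ y ∈ m7.2.bl, PsdOK P.b P.o y.rows := List.forall_mem_cons.2 ⟨p49, List.forall_mem_cons.2 ⟨p50, List.forall_mem_cons.2 ⟨p53, List.forall_mem_cons.2 ⟨p54, List.forall_mem_cons.2 ⟨p81, List.forall_mem_cons.2 ⟨p82, List.forall_mem_cons.2 ⟨p83, List.forall_mem_cons.2 ⟨p84, List.forall_mem_cons.2 ⟨p229, List.forall_mem_cons.2 ⟨p230, List.forall_mem_cons.2 ⟨p231, List.forall_mem_cons.2 ⟨p232, List.forall_mem_cons.2 ⟨p233, List.forall_mem_cons.2 ⟨p234, List.forall_mem_cons.2 ⟨p235, List.forall_mem_nil _⟩⟩⟩⟩⟩⟩⟩⟩⟩⟩⟩⟩⟩⟩⟩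
  have e6 : ∀ y ∈ m6.2.bl, PsdOK P.b P.o y.rows := List.forall_mem_cons.2 ⟨p47, List.forall_mem_cons.2 ⟨p48, List.forall_mem_cons.2 ⟨p51, List.forall_mem_cons.2 ⟨p52, List.forall_mem_cons.2 ⟨p77, List.forall_mem_cons.2 ⟨p78, List.forall_mem_cons.2 ⟨p79, List.forall_mem_cons.2 ⟨p80, List.forall_mem_cons.2 ⟨p222, List.forall_mem_cons.2 ⟨p223, List.forall_mem_cons.2 ⟨p224, List.forall_mem_cons.2 ⟨p225, List.forall_mem_cons.2 ⟨p226, List.forall_mem_cons.2 ⟨p227, List.forall_mem_cons.2 ⟨p228, List.forall_mem_nil _⟩⟩⟩⟩⟩⟩⟩⟩⟩⟩⟩⟩⟩⟩⟩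
  have e5 : ∀ y ∈ m5.2.bl, PsdOK P.b P.o y.rows := List.forall_mem_cons.2 ⟨p41, List.forall_mem_cons.2 ⟨p42, List.forall_mem_cons.2 ⟨p43, List.forall_mem_cons.2 ⟨p44, List.forall_mem_cons.2 ⟨p45, List.forall_mem_cons.2 ⟨p46, List.forall_mem_cons.2 ⟨p69, List.forall_mem_cons.2 ⟨p70, List.forall_mem_cons.2 ⟨p71, List.forall_mem_cons.2 ⟨p72, List.forall_mem_cons.2 ⟨p73, List.forall_mem_cons.2 ⟨p74, List.forall_mem_cons.2 ⟨p75, List.forall_mem_cons.2 ⟨p76, List.forall_mem_cons.2 ⟨p214, List.forall_mem_cons.2 ⟨p215, List.forall_mem_cons.2 ⟨p216, List.forall_mem_cons.2 ⟨p217, List.forall_mem_cons.2 ⟨p218, List.forall_mem_cons.2 ⟨p219, List.forall_mem_cons.2 ⟨p220, List.forall_mem_cons.2 ⟨p221, List.forall_mem_nil _⟩⟩⟩⟩⟩⟩⟩⟩⟩⟩⟩⟩⟩⟩⟩⟩⟩⟩⟩⟩⟩⟩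
  have e4 : ∀ y ∈ m4.2.bl, PsdOK P.b P.o y.rows := List.forall_mem_cons.2 ⟨p19, List.forall_mem_cons.2 ⟨p20, List.forall_mem_cons.2 ⟨p21, List.forall_mem_cons.2 ⟨p22, List.forall_mem_nil _⟩⟩⟩⟩
  have e3 : ∀ y ∈ m3.2.bl, PsdOK P.b P.o y.rows := List.forall_mem_cons.2 ⟨p17, List.forall_mem_cons.2 ⟨p18, List.forall_mem_nil _⟩⟩
  have e2 : ∀ y ∈ m2.2.bl, PsdOK P.b P.o y.rows := List.forall_mem_cons.2 ⟨p11, List.forall_mem_cons.2 ⟨p12, List.forall_mem_cons.2 ⟨p15, List.forall_mem_cons.2 ⟨p16, List.forall_mem_cons.2 ⟨p37, List.forall_mem_cons.2 ⟨p38, List.forall_mem_cons.2 ⟨p39, List.forall_mem_cons.2 ⟨p40, List.forall_mem_nil _⟩⟩⟩⟩⟩⟩⟩⟩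
  have e1 : ∀ y ∈ m1.2.bl, PsdOK P.b P.o y.rows := List.forall_mem_cons.2 ⟨p9, List.forall_mem_cons.2 ⟨p10, List.forall_mem_cons.2 ⟨p13, List.forall_mem_cons.2 ⟨p14, List.forall_mem_cons.2 ⟨p33, List.forall_mem_cons.2 ⟨p34, List.forall_mem_cons.2 ⟨p35, List.forall_mem_cons.2 ⟨p36, List.forall_mem_nil _⟩⟩⟩⟩⟩⟩⟩⟩
  have e0 : ∀ y ∈ m0.2.bl, PsdOK P.b P.o y.rows := List.forall_mem_cons.2 ⟨p0, List.forall_mem_cons.2 ⟨p1, List.forall_mem_cons.2 ⟨p2, List.forall_mem_cons.2 ⟨p3, List.forall_mem_cons.2 ⟨p4, List.forall_mem_cons.2 ⟨p5, List.forall_mem_cons.2 ⟨p6, List.forall_mem_cons.2 ⟨p7, List.forall_mem_cons.2 ⟨p8, List.forall_mem_cons.2 ⟨p23, List.forall_mem_cons.2 ⟨p24, List.forall_mem_cons.2 ⟨p25, List.forall_mem_cons.2 ⟨p26, List.forall_mem_cons.2 ⟨p27, List.forall_mem_cons.2 ⟨p28, List.forall_mem_cons.2 ⟨p29, List.forall_mem_cons.2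 ⟨p30, List.forall_mem_cons.2 ⟨p31, List.forall_mem_cons.2 ⟨p32, List.forall_mem_nil _⟩⟩⟩⟩⟩⟩⟩⟩⟩⟩⟩⟩⟩⟩⟩⟩⟩⟩⟩
  exact List.forall_mem_cons.2 ⟨e0, List.forall_mem_cons.2 ⟨e1, List.forall_mem_cons.2 ⟨e2, List.forall_mem_cons.2 ⟨e3, List.forall_mem_cons.2 ⟨e4, List.forall_mem_cons.2 ⟨e5, List.forall_mem_cons.2 ⟨e6, List.forall_mem_cons.2 ⟨e7, List.forall_mem_cons.2 ⟨e8, List.forall_mem_cons.2 ⟨e9, List.forall_mem_cons.2 ⟨e10, List.forall_mem_cons.2 ⟨e11, List.forall_mem_cons.2 ⟨e12, List.forall_mem_cons.2 ⟨e13, List.forall_mem_cons.2 ⟨e14, List.forall_mem_cons.2 ⟨e15, List.forall_mem_cons.2 ⟨e16, List.forall_mem_cons.2 ⟨e17, List.forall_mem_cons.2 ⟨e18, List.forall_mem_cons.2 ⟨e19, List.forall_mem_cons.2 ⟨e20, List.forall_mem_cons.2 ⟨e21, List.forall_mem_cons.2 ⟨e22, List.forall_mem_cons.2 ⟨e23, List.forall_mem_cons.2 ⟨e24, List.forall_mem_cons.2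 ⟨e25, List.forall_mem_cons.2 ⟨e26, List.forall_mem_cons.2 ⟨e27, List.forall_mem_cons.2 ⟨e28, List.forall_mem_cons.2 ⟨e29, List.forall_mem_cons.2 ⟨e30, List.forall_mem_cons.2 ⟨e31, List.forall_mem_cons.2 ⟨e32, List.forall_mem_cons.2 ⟨e33, List.forall_mem_cons.2 ⟨e34, List.forall_mem_cons.2 ⟨e35, List.forall_mem_cons.2 ⟨e36, List.forall_mem_nil _⟩⟩⟩⟩⟩⟩⟩⟩⟩⟩⟩⟩⟩⟩⟩⟩⟩⟩⟩⟩⟩⟩⟩⟩⟩⟩⟩⟩⟩⟩⟩⟩⟩⟩⟩⟩⟩

theorem hnn (ρ : ℕ → ℝ) (hρ : DomR ρ) : 0 ≤ ev ρ (P.sosP (ml0.map Prod.snd ++ [])) := by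
  have h := specSNX P Q.ra Q.rb Q.ro ⟨hQ.ok, hQ.rd, by decide +kernel⟩ (ml0 ++ []) [] (mlOK_append hm0 (fun x hx => absurd hx List.not_mem_nil))
    (fun x hx => absurd hx List.not_mem_nil) (by decide +kernel) (fun x hx => (List.mem_append.1 hx).elim (hp0 x) ((fun x hx => absurd hx List.not_mem_nil) x)) (fun x hx => absurd hx List.not_mem_nil) ρ hρ
  simpa only [List.map_append, List.map_nil, List.flatMap_nil, List.append_nil] using h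

theorem posG : PosG G T :=
  specHFX P _ G T _ hid0 hnn hpy fun D1 D2 d => specTLS _ _ _ _ D1 D2 d

/-- **The generator is valid.** -/
theorem gv8 (hKRJ : SpecKRJ) (hGVK : SpecGVK) (hNQA : SpecNQA)
    (hTLM : ∀ rc rs : ℝ, -1 ≤ rc → rc ≤ 4 / 5 → -1 ≤ rs → rs ≤ 4 / 5 → ∃ N1 : ℕ, ∀ n : ℕ, N1 ≤ n → ∀ d : Dt,
      Dom (1 / 3) (1 / 2) 1 d → TLM.TLd rc rs d ≤ ∑ k ∈ Finset.Ico 3 n, tcf k * (SY.mu (k + 1) * TTd (k + 1) rc rs d)) :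
    GV8 ⟨1 / 2, -(1), 1, 0, 0, 1 / 20, 1 / 500, 230711 / 212097000, 0⟩ := by
  refine specXGR hKRJ hGVK hNQA hTLM kp 0 ns posG hns ⟨1 / 2, -(1), 1, 0, 0, 1 / 20, 1 / 500, 230711 / 212097000, 0⟩ 2 137438856000 ?_ (by norm_num) (by norm_num) (by norm_num)
    (by norm_num) (by norm_num) (by norm_num) (by norm_num) ?_
  · constructor <;> norm_num [kp]
  · intro X x1 x2 γ h1 h2 hγ
    have hp : 0 ≤ psQ (1 / 2) (-(1)) x1 x2 := GVCM.psQ_nonneg (by norm_num) (by norm_num) h2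
    have e1 : mtV kp.Ph X x1 x2 γ / 137438856000 = (0) * γ ^ 2 + (1 / 20) * (γ * X) + (1 / 500) * X ^ 2 + (230711 / 212097000) -
        (0) * (x1 ^ 2 + x2 ^ 2 + 3 * γ ^ 2 - 3 / 4) ^ 2 := by
      simp only [kp, mtV, List.map_cons, List.map_nil, List.sum_cons, List.sum_nil]
      push_cast
      ring
    have e2 : mtV kp.Pe X x1 x2 γ = 0 := by simp [kp, mtV]
    rw [e1, e2, zero_div, add_zero]
    all_goals
      refine mul_le_mul_of_nonneg_left ?_ hp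
      have hC : (0 : ℝ) * γ ^ 2 ≤ (0) * γ ^ 2 := mul_le_mul_of_nonneg_right (by norm_num) (sq_nonneg γ)
      have he : (230711 / 212097000 : ℝ) ≤ 230711 / 212097000 := by norm_num
      first | linarith | (simp only; linarith)

end Pool.Agent.Lib.MP_084b88_gt.SK.S1
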