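import Pool.Agent.Lib.MP_084b88_gt.SK.S1.D

/-! # MP_084b88_gt: certificate S1, parameters -/

set_option autoImplicit false

namespace Pool.Agent.Lib.MP_084b88_gt.SK.S1

open Pool.Agent.Lib.MP_084b88_gt.SK

theorem hQ : QOK P Q [11, 11, 11, 11, 11, 11, 11, 11, 11, 11] where
  ok := ⟨by decide +kernel, by decide +kernel, by decide +kernel, by decide +kernel, by decide +kernel⟩
  ho := by decide +kernel
  two := ⟨by decide +kernel, by decide +kernel, by decide +kernel, by decide +kernel⟩
  rd := ⟨by decide +kernel, by decide +kernel, by decide +kernel, by decide +kernel⟩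
  sw := ⟨by decide +kernel, by decide +kernel, by decide +kernel, by decide +kernel, by decide +kernel⟩
  hdl := by decide +kernel
  zi1 := by decide +kernel
  zi2 := by decide +kernel
  zo := by decide +kernel
  hB := by decide +kernel

theorem hE : EvOK P E where
  ha := by decide +kernel
  hb := by decide +kernel
  ho := by decide +kernel
  hn := by decide +kernel
  hl := by decide +kernel

end Pool.Agent.Lib.MP_084b88_gt.SK.S1
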